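import Mathlib
import Pool.Agent.H52.Cyc105

set_option autoImplicit false
open Polynomial Pool.Agent.H52.Cyc105

namespace Pool.Agent.Results.MP_c80912_nt.NotReflexive

/-- The coefficient vector of the remainder of t^r on division by the k-th cyclotomic
polynomial. -/
noncomputable def avec (k r : ℕ) : Fin (Nat.totient k) → ℝ :=
  fun s => (((X ^ r : ℤ[X]) %ₘ cyclotomic k ℤ).coeff s : ℤ)

/-- The cyclopolytope N_k. -/
def cycloP (k : ℕ) : Set (Fin (Nat.totient k) → ℝ) :=
  convexHull ℝ {x | ∃ r < k, x = avec k r}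

/-- The polar body. -/
def polar {d : ℕ} (P : Set (Fin d → ℝ)) : Set (Fin d → ℝ) := {y | ∀ x ∈ P, x ⬝ᵥ y ≤ 1}

/-- Full-dimensional, origin in the interior, and all vertices of the polar are integral. -/
def Reflexive {d : ℕ} (P : Set (Fin d → ℝ)) : Prop :=
  affineSpan ℝ P = ⊤ ∧ 0 ∈ interior P ∧
    ∀ y ∈ Set.extremePoints ℝ (polar P), ∀ i, ∃ m : ℤ, y i = m

noncomputable def L (y : Fin (Nat.totient 105) → ℝ) (f : ℤ[X]) : ℝ :=
  ∑ s : Fin (Nat.totient 105), ((f %ₘ cyclotomic 105 ℤ).coeff s : ℤ) * y s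

lemma L_add (y : Fin (Nat.totient 105) → ℝ) (f g : ℤ[X]) : L y (f + g) = L y f + L y g := by
  simp only [L, add_modByMonic, coeff_add, Int.cast_add, add_mul, Finset.sum_add_distrib]

lemma L_zero (y : Fin (Nat.totient 105) → ℝ) (f : ℤ[X])
    (h : aeval (Complex.exp (2 * Real.pi * Complex.I / (105 : ℕ))) f = 0) : L y f = 0 := by
  have hz := Complex.isPrimitiveRoot_exp 105 (by norm_num)
  have hd : cyclotomic 105 ℤ ∣ f := by
    rw [cyclotomic_eq_minpoly hz (by norm_num)]
    exact minpoly.isIntegrallyClosed_dvd (hz.isIntegral (by norm_num)) h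
  rw [← modByMonic_eq_zero_iff_dvd (cyclotomic.monic 105 ℤ)] at hd
  simp [L, hd]

lemma rel (y : Fin (Nat.totient 105) → ℝ) : Rel (fun r => avec 105 r ⬝ᵥ y) := by
  have hz := Complex.isPrimitiveRoot_exp 105 (by norm_num)
  have e : ∀ r, avec 105 r ⬝ᵥ y = L y (X ^ r) := fun r => rfl
  simp only [e]
  have g3 := (hz.pow (by norm_num) (show 105 = 35 * 3 by norm_num)).geom_sum_eq_zero (by norm_num)
  have g5 := (hz.pow (by norm_num) (show 105 = 21 * 5 by norm_num)).geom_sum_eq_zero (by norm_num)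
  have g7 := (hz.pow (by norm_num) (show 105 = 15 * 7 by norm_num)).geom_sum_eq_zero (by norm_num)
  simp only [Finset.sum_range_succ, Finset.sum_range_zero] at g3 g5 g7
  refine ⟨fun r _ => ?_, fun r _ => ?_, fun r _ => ?_⟩ <;> simp only [← L_add] <;>
    apply L_zero <;> simp only [map_add, map_pow, aeval_X]
  · linear_combination Complex.exp (2 * Real.pi * Complex.I / (105 : ℕ)) ^ r * g3
  · linear_combination Complex.exp (2 * Real.pi * Complex.I / (105 : ℕ)) ^ r * g5
  · linear_combination Complex.exp (2 * Real.pi * Complex.I / (105 : ℕ)) ^ r * g7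

lemma tot : Nat.totient 105 = 48 := by decide +kernel

lemma small (y : Fin (Nat.totient 105) → ℝ) (s : Fin (Nat.totient 105)) :
    avec 105 s ⬝ᵥ y = y s := by
  have h : (X ^ (s : ℕ) : ℤ[X]) %ₘ cyclotomic 105 ℤ = X ^ (s : ℕ) := by
    rw [modByMonic_eq_self_iff (cyclotomic.monic 105 ℤ), degree_cyclotomic, degree_X_pow]
    exact_mod_cast s.2
  simp only [dotProduct, avec, h, coeff_X_pow]
  rw [Finset.sum_eq_single s]
  · simp
  · intro b _ hb
    have : (b : ℕ) ≠ s := fun e => hb (Fin.ext e)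
    simp [this]
  · simp

lemma rel_sub {D E : ℕ → ℝ} (hD : Rel D) (hE : Rel E) : Rel (fun r => D r - E r) := by
  refine ⟨fun r hr => ?_, fun r hr => ?_, fun r hr => ?_⟩
  · linear_combination hD.1 r hr - hE.1 r hr
  · linear_combination hD.2.1 r hr - hE.2.1 r hr
  · linear_combination hD.2.2 r hr - hE.2.2 r hr

noncomputable def y0 : Fin (Nat.totient 105) → ℝ := fun s => (tt s : ℝ) / 2

lemma val (r : ℕ) (hr : r < 105) : avec 105 r ⬝ᵥ y0 = (tt r : ℝ) / 2 := by
  have := zero1 _ (rel_sub (rel y0) tt_rel) (fun s hs => by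
    have hs' : s < Nat.totient 105 := by
      rw [tot]; revert s; decide
    have := small y0 ⟨s, hs'⟩
    simp only at this ⊢
    rw [this, y0, sub_self]) r hr
  simpa [sub_eq_zero] using this

lemma gen_mem (r : ℕ) (hr : r < 105) : avec 105 r ∈ cycloP 105 :=
  subset_convexHull ℝ _ ⟨r, hr, rfl⟩

lemma y0_mem : y0 ∈ polar (cycloP 105) := by
  intro x hx
  refine convexHull_min (t := {x | x ⬝ᵥ y0 ≤ 1}) ?_ ?_ hx
  · rintro _ ⟨r, hr, rfl⟩
    have h : (tt r : ℝ) ≤ 2 := by exact_mod_cast tt_le r hr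
    show avec 105 r ⬝ᵥ y0 ≤ 1
    rw [val r hr]; linarith
  · intro u hu v hv a b ha hb hab
    have hu' : u ⬝ᵥ y0 ≤ 1 := hu
    have hv' : v ⬝ᵥ y0 ≤ 1 := hv
    show (a • u + b • v) ⬝ᵥ y0 ≤ 1
    rw [add_dotProduct, smul_dotProduct, smul_dotProduct, smul_eq_mul, smul_eq_mul]
    nlinarith

lemma rigid (y : Fin (Nat.totient 105) → ℝ) (h : ∀ r ∈ Z, avec 105 r ⬝ᵥ y = 1) : y = y0 := by
  have := zero2 _ (rel_sub (rel y) (rel y0)) (fun r hr => by
    obtain ⟨h1, h2⟩ := tt_Z r hr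
    rw [h r hr, val r h1, h2]; norm_num)
  funext s
  have h3 := this s (by have := s.2; have := tot; omega)
  simp only [small] at h3
  linarith

/-- The cyclopolytope N_105 is not reflexive. -/
theorem result : ∃ k : ℕ, 2 ≤ k ∧ ¬ Reflexive (cycloP k) := by
  refine ⟨105, by norm_num, fun ⟨_, _, h⟩ => ?_⟩
  have hext : y0 ∈ Set.extremePoints ℝ (polar (cycloP 105)) := by
    refine ⟨y0_mem, fun u hu v hv hseg => ?_⟩
    obtain ⟨a, b, ha, hb, hab, e⟩ := hseg
    apply rigid
    intro r hr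
    obtain ⟨h1, h2⟩ := tt_Z r hr
    have e1 := hu _ (gen_mem r h1)
    have e2 := hv _ (gen_mem r h1)
    have e3 := val r h1
    rw [← e, dotProduct_add, dotProduct_smul, dotProduct_smul, smul_eq_mul, smul_eq_mul, h2] at e3
    norm_num at e3
    nlinarith
  obtain ⟨m, hm⟩ := h y0 hext ⟨14, by rw [tot]; norm_num⟩
  have h14 : tt 14 = 1 := by decide +kernel
  simp only [y0, h14] at hm
  have : (1 : ℝ) = 2 * m := by push_cast at hm; linarith
  have : (1 : ℤ) = 2 * m := by exact_mod_cast this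
  omega

end Pool.Agent.Results.MP_c80912_nt.NotReflexive
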